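import Pool.Agent.H99.SQ.Defs

set_option autoImplicit false

open Finset Filter Topology

namespace Pool.Agent.H49.SQ

open Pool.Agent.H99.SQ

theorem pf_GA (h1 : T_SEM) (h2 : T_KC) : T_GA := by
  classical
  intro Y n x T hodd hn hnx hx hT hSS hTc
  obtain ⟨s1, -, s3, -⟩ := h1
  have hn0 : n ≠ 0 := by omega
  set lam := Nat.log 2 n with hlam
  have hlo : 2 ^ lam ≤ n := Nat.pow_log_le_self 2 hn0
  have hhi : n < 2 ^ (lam + 1) := Nat.lt_pow_succ_log_self (by norm_num) n
  -- finite set of representations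
  have hfin : (RR n).Finite := by
    refine (Finset.finite_toSet (range n)).subset ?_
    intro l hl
    have : 2 ^ l < n := hl.1
    have h3 : l < 2 ^ l := Nat.lt_two_pow_self
    simp only [coe_range, Set.mem_Iio]
    omega
  have hrep : rep n = hfin.toFinset.card := by
    unfold rep
    exact Set.ncard_eq_toFinset_card (RR n) hfin
  set A : Finset ℕ := (range (lam + 1)).filter (fun l => ∃ p ∈ FF Y, Kill p n l) with hA
  have hOP : ∀ p ∈ FF Y, OP p := by
    intro p hp
    have := (Finset.mem_filter.1 hp).2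
    exact this
  have hKC := h2 (FF Y) n (lam + 1) A hOP (by
    intro l hl
    have := Finset.mem_filter.1 hl
    exact ⟨Finset.mem_range.1 this.1, this.2⟩)
  have hsub : Finset.Icc 1 lam ⊆ (hfin.toFinset ∪ A) ∪ T := by
    intro l hl
    obtain ⟨hl1, hl2⟩ := Finset.mem_Icc.1 hl
    have hpow : 2 ^ l ≤ 2 ^ lam := Nat.pow_le_pow_right (by norm_num) hl2
    have hle : 2 ^ l ≤ n := le_trans hpow hlo
    have hne : 2 ^ l ≠ n := by
      intro h
      rw [← h] at hodd
      have : Even (2 ^ l) := (Nat.even_pow.2 ⟨even_two, by omega⟩)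
      exact (Nat.not_even_iff_odd.2 hodd) this
    have hlt : 2 ^ l < n := lt_of_le_of_ne hle hne
    by_cases hR : l ∈ RR n
    · exact Finset.mem_union_left _ (Finset.mem_union_left _ (hfin.mem_toFinset.2 hR))
    · obtain ⟨p, hp, -, hk⟩ := s3 n l hodd hl1 hlt hR
      by_cases hpY : p ≤ Y
      · refine Finset.mem_union_left _ (Finset.mem_union_right _ ?_)
        refine Finset.mem_filter.2 ⟨Finset.mem_range.2 (by omega), p, ?_, hk⟩
        refine Finset.mem_filter.2 ⟨Finset.mem_range.2 (by omega), hp.1, hp.2⟩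
      · refine Finset.mem_union_right _ ((hT l).2 ⟨hlt, p, hp.1, by omega, ?_⟩)
        exact (s1 p n l hle).1 hk
  have hcard : lam ≤ rep n + A.card + T.card := by
    calc lam = (Finset.Icc 1 lam).card := by simp
      _ ≤ ((hfin.toFinset ∪ A) ∪ T).card := Finset.card_le_card hsub
      _ ≤ (hfin.toFinset ∪ A).card + T.card := Finset.card_union_le _ _
      _ ≤ hfin.toFinset.card + A.card + T.card := by
          have := Finset.card_union_le hfin.toFinset A
          omega
      _ = rep n + A.card + T.card := by rw [hrep]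
  have hlogx : Nat.log 2 x ≤ 340 + lam := by
    have hxlt : x < 2 ^ (340 + lam + 1) := by
      calc x < 2 ^ 340 * n := hx
        _ ≤ 2 ^ 340 * 2 ^ (lam + 1) := Nat.mul_le_mul_left _ hhi.le
        _ = 2 ^ (340 + lam + 1) := by rw [← pow_add]; congr 1
    have : Nat.log 2 x < 340 + lam + 1 := Nat.log_lt_of_lt_pow (by omega) hxlt
    omega
  have hTn : 200 * T.card ≤ lam + 341 := by omega
  have e1 : (lam : ℝ) ≤ rep n + A.card + T.card := by exact_mod_cast hcard
  have e2 : (200 : ℝ) * T.card ≤ lam + 341 := by exact_mod_cast hTn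
  have e3 : (A.card : ℝ) ≤ (lam + 1) * (92 / 100) + (FF Y).card := by
    have h3 : (A.card : ℝ) ≤ ((lam + 1 : ℕ) : ℝ) * SS (FF Y) n + (FF Y).card := hKC
    have h4 : ((lam + 1 : ℕ) : ℝ) * SS (FF Y) n ≤ ((lam + 1 : ℕ) : ℝ) * (92 / 100) :=
      mul_le_mul_of_nonneg_left hSS (by positivity)
    push_cast at h3 h4
    linarith
  have e4 : Real.log n ≤ (lam + 1) * 0.6931471808 := by
    have h5 : Real.log n ≤ Real.log ((2 : ℝ) ^ (lam + 1)) := by
      apply Real.log_le_log
      · exact_mod_cast Nat.pos_of_ne_zero hn0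
      · exact_mod_cast hhi.le
    rw [Real.log_pow] at h5
    have h6 := Real.log_two_lt_d9
    push_cast at h5
    have h7 : ((lam : ℝ) + 1) * Real.log 2 ≤ (lam + 1) * 0.6931471808 :=
      mul_le_mul_of_nonneg_left h6.le (by positivity)
    linarith
  have e5 : (0 : ℝ) ≤ lam := by positivity
  nlinarith

end Pool.Agent.H49.SQ
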